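import Mathlib

set_option autoImplicit false

namespace Pool.Agent.Results.MP_b4625f_gt.RotationOne

open Real Set Filter Topology

/-- `Γ = (X, Y)` is a twice continuously differentiable, unit speed, `L`-periodic closed plane
curve which is simple, strictly convex and traversed counterclockwise: the curve lies strictly to
the left of each of its oriented tangent lines, except at the point of tangency. -/
structure ConvexFrontTrack (X Y : ℝ → ℝ) (L : ℝ) : Prop where
  pos : 0 < L
  smoothX : ContDiff ℝ 2 X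
  smoothY : ContDiff ℝ 2 Y
  unitSpeed : ∀ t, deriv X t ^ 2 + deriv Y t ^ 2 = 1
  periodicX : ∀ t, X (t + L) = X t
  periodicY : ∀ t, Y (t + L) = Y t
  strictlyLeft : ∀ s t : ℝ, (∀ k : ℤ, t ≠ s + k * L) →
    0 < deriv X s * (Y t - Y s) - deriv Y s * (X t - X s)

/-- `θ` is the angle of a bicycle frame of length `ℓ` whose front end follows `Γ = (X, Y)`:
the no-skid condition `ℓ θ' = X' sin θ - Y' cos θ` holds at all times. -/
def IsFrameAngle (X Y : ℝ → ℝ) (ℓ : ℝ) (θ : ℝ → ℝ) : Prop :=
  ∀ t, HasDerivAt θ ((deriv X t * sin (θ t) - deriv Y t * cos (θ t)) / ℓ) t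

/-- The rotation number of the rear track over one period: the number of turns of the frame. -/
noncomputable def rotationNumber (θ : ℝ → ℝ) (L : ℝ) : ℝ := (θ L - θ 0) / (2 * π)

/-! ### The tangent angle -/

/-- data of a tangent angle `φ` with derivative `κ` -/
structure TangentAngle (X Y : ℝ → ℝ) (L : ℝ) (φ κ : ℝ → ℝ) : Prop where
  cosφ : ∀ t, HasDerivAt X (cos (φ t)) t
  sinφ : ∀ t, HasDerivAt Y (sin (φ t)) t
  der : ∀ t, HasDerivAt φ (κ t) t
  contκ : Continuous κ
  nonneg : ∀ t, 0 ≤ κ t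
  mono : StrictMono φ
  turn : ∀ t, φ (t + L) = φ t + 2 * π

lemma exists_lift {X Y : ℝ → ℝ} {L : ℝ} (h : ConvexFrontTrack X Y L) :
    ∃ φ κ : ℝ → ℝ, (∀ t, deriv X t = cos (φ t)) ∧ (∀ t, deriv Y t = sin (φ t)) ∧
      (∀ t, HasDerivAt φ (κ t) t) ∧ Continuous κ := by
  have hX1 : ContDiff ℝ 1 (deriv X) := by
    have : ContDiff ℝ (1 + 1) X := by norm_num; exact h.smoothX
    exact ((contDiff_succ_iff_deriv).1 this).2.2
  have hY1 : ContDiff ℝ 1 (deriv Y) := by
    have : ContDiff ℝ (1 + 1) Y := by norm_num; exact h.smoothY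
    exact ((contDiff_succ_iff_deriv).1 this).2.2
  have hX2 : ∀ t, HasDerivAt (deriv X) (deriv (deriv X) t) t := fun t =>
    (hX1.differentiable (by norm_num) t).hasDerivAt
  have hY2 : ∀ t, HasDerivAt (deriv Y) (deriv (deriv Y) t) t := fun t =>
    (hY1.differentiable (by norm_num) t).hasDerivAt
  have cX : Continuous (deriv (deriv X)) := hX1.continuous_deriv (by norm_num)
  have cY : Continuous (deriv (deriv Y)) := hY1.continuous_deriv (by norm_num)
  let κ : ℝ → ℝ := fun t => deriv X t * deriv (deriv Y) t - deriv Y t * deriv (deriv X) t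
  have hκ : Continuous κ := by
    have a := hX1.continuous
    have b := hY1.continuous
    fun_prop
  have horth : ∀ t, deriv X t * deriv (deriv X) t + deriv Y t * deriv (deriv Y) t = 0 := by
    intro t
    have h1 : HasDerivAt (fun t => deriv X t ^ 2 + deriv Y t ^ 2)
        (2 * deriv X t ^ 1 * deriv (deriv X) t + 2 * deriv Y t ^ 1 * deriv (deriv Y) t) t := by
      have := ((hX2 t).fun_pow 2).fun_add ((hY2 t).fun_pow 2)
      simpa using this
    have h2 : (fun t => deriv X t ^ 2 + deriv Y t ^ 2) = fun _ => (1 : ℝ) := by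
      ext t; exact h.unitSpeed t
    rw [h2] at h1
    have h3 := h1.unique (hasDerivAt_const t (1 : ℝ))
    linarith
  have hXX : ∀ t, deriv (deriv X) t = -(κ t * deriv Y t) := by
    intro t
    have a := horth t
    have b := h.unitSpeed t
    simp only [κ]
    linear_combination (-deriv (deriv X) t) * b + (deriv X t) * a
  have hYY : ∀ t, deriv (deriv Y) t = κ t * deriv X t := by
    intro t
    have a := horth t
    have b := h.unitSpeed t
    simp only [κ]
    linear_combination (-deriv (deriv Y) t) * b + (deriv Y t) * a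
  -- initial angle
  obtain ⟨φ0, hφ0c, hφ0s⟩ : ∃ φ0 : ℝ, deriv X 0 = cos φ0 ∧ deriv Y 0 = sin φ0 := by
    have hn : ‖(⟨deriv X 0, deriv Y 0⟩ : ℂ)‖ = 1 := by
      rw [Complex.norm_def, Complex.normSq_mk]
      have := h.unitSpeed 0
      rw [show deriv X 0 * deriv X 0 + deriv Y 0 * deriv Y 0 = 1 by nlinarith]
      simp
    refine ⟨Complex.arg ⟨deriv X 0, deriv Y 0⟩, ?_, ?_⟩
    · rw [Complex.cos_arg, hn]
      · simp
      · intro h0
        rw [h0] at hn
        simp at hn
    · rw [Complex.sin_arg, hn]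
      simp
  let φ : ℝ → ℝ := fun t => φ0 + ∫ s in (0 : ℝ)..t, κ s
  have hφ : ∀ t, HasDerivAt φ (κ t) t := by
    intro t
    have := (intervalIntegral.integral_hasDerivAt_right (hκ.intervalIntegrable 0 t)
      (hκ.stronglyMeasurableAtFilter _ _) hκ.continuousAt)
    exact this.const_add φ0
  have hφ00 : φ 0 = φ0 := by simp [φ]
  have hE : ∀ t, deriv X t * cos (φ t) + deriv Y t * sin (φ t) = 1 := by
    have hd : ∀ t, HasDerivAt (fun t => deriv X t * cos (φ t) + deriv Y t * sin (φ t)) 0 t := by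
      intro t
      have := ((hX2 t).fun_mul (hφ t).cos).fun_add ((hY2 t).fun_mul (hφ t).sin)
      refine this.congr_deriv ?_
      rw [hXX, hYY]
      ring
    intro t
    have hconst : deriv X t * cos (φ t) + deriv Y t * sin (φ t) =
        deriv X 0 * cos (φ 0) + deriv Y 0 * sin (φ 0) :=
      is_const_of_deriv_eq_zero (f := fun t => deriv X t * cos (φ t) +
        deriv Y t * sin (φ t)) (fun t => (hd t).differentiableAt) (fun t => (hd t).deriv) t 0
    rw [hconst, hφ00, hφ0c, hφ0s]
    have := sin_sq_add_cos_sq φ0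
    nlinarith
  refine ⟨φ, κ, ?_, ?_, hφ, hκ⟩
  · intro t
    have a := hE t
    have b := h.unitSpeed t
    have c := sin_sq_add_cos_sq (φ t)
    have : (deriv X t - cos (φ t)) ^ 2 + (deriv Y t - sin (φ t)) ^ 2 = 0 := by nlinarith
    have h1 : (deriv X t - cos (φ t)) ^ 2 = 0 := by
      nlinarith [sq_nonneg (deriv X t - cos (φ t)), sq_nonneg (deriv Y t - sin (φ t))]
    exact sub_eq_zero.1 (pow_eq_zero_iff (by norm_num) |>.1 h1)
  · intro t
    have a := hE t
    have b := h.unitSpeed t
    have c := sin_sq_add_cos_sq (φ t)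
    have : (deriv X t - cos (φ t)) ^ 2 + (deriv Y t - sin (φ t)) ^ 2 = 0 := by nlinarith
    have h1 : (deriv Y t - sin (φ t)) ^ 2 = 0 := by
      nlinarith [sq_nonneg (deriv X t - cos (φ t)), sq_nonneg (deriv Y t - sin (φ t))]
    exact sub_eq_zero.1 (pow_eq_zero_iff (by norm_num) |>.1 h1)

lemma exists_tangentAngle {X Y : ℝ → ℝ} {L : ℝ} (h : ConvexFrontTrack X Y L) :
    ∃ φ κ : ℝ → ℝ, TangentAngle X Y L φ κ := by
  obtain ⟨φ, κ, hX, hY, hφ, hκ⟩ := exists_lift h
  have hdX : ∀ t, HasDerivAt X (cos (φ t)) t := by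
    intro t; rw [← hX]; exact (h.smoothX.differentiable (by norm_num) t).hasDerivAt
  have hdY : ∀ t, HasDerivAt Y (sin (φ t)) t := by
    intro t; rw [← hY]; exact (h.smoothY.differentiable (by norm_num) t).hasDerivAt
  have hφc : Continuous φ := continuous_iff_continuousAt.2 fun t => (hφ t).continuousAt
  -- the height function
  have hder : ∀ s t, HasDerivAt (fun t => deriv X s * (Y t - Y s) - deriv Y s * (X t - X s))
      (sin (φ t - φ s)) t := by
    intro s t
    have := (((hdY t).sub_const (Y s)).const_mul (deriv X s)).fun_sub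
      (((hdX t).sub_const (X s)).const_mul (deriv Y s))
    refine this.congr_deriv ?_
    rw [hX, hY, sin_sub]
    ring
  have hnn : ∀ s t, s < t → t < s + L →
      0 < deriv X s * (Y t - Y s) - deriv Y s * (X t - X s) := by
    intro s t hst htL
    apply h.strictlyLeft
    intro k hk
    have hL := h.pos
    rcases le_or_gt k 0 with hk0 | hk0
    · have : (k : ℝ) ≤ 0 := by exact_mod_cast hk0
      nlinarith
    · have : (1 : ℝ) ≤ k := by exact_mod_cast hk0
      nlinarith
  have hnonneg : ∀ s, 0 ≤ κ s := by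
    intro s
    by_contra hneg
    push Not at hneg
    -- κ negative near s, φ near φ s
    have e1 : ∀ᶠ t in 𝓝 s, κ t < 0 := hκ.continuousAt.eventually_lt continuousAt_const hneg
    have e2 : ∀ᶠ t in 𝓝 s, |φ t - φ s| < π := by
      have : Continuous fun t => |φ t - φ s| := by fun_prop
      apply this.continuousAt.eventually_lt continuousAt_const
      simp [pi_pos]
    obtain ⟨δ, hδ, hball⟩ := Metric.eventually_nhds_iff.1 (e1.and e2)
    set r := min (δ / 2) (L / 2) with hr
    have hr0 : 0 < r := lt_min (by linarith) (by linarith [h.pos])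
    have hrδ : r < δ := lt_of_le_of_lt (min_le_left _ _) (by linarith)
    have hrL : r < L := lt_of_le_of_lt (min_le_right _ _) (by linarith [h.pos])
    have hin : ∀ t ∈ Icc s (s + r), κ t < 0 ∧ |φ t - φ s| < π := by
      intro t ht
      apply hball
      rw [Real.dist_eq, abs_of_nonneg (by linarith [ht.1])]
      linarith [ht.2]
    have hanti : StrictAntiOn φ (Icc s (s + r)) := by
      apply strictAntiOn_of_deriv_neg (convex_Icc _ _) hφc.continuousOn
      intro t ht
      rw [interior_Icc] at ht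
      rw [(hφ t).deriv]
      exact (hin t (Ioo_subset_Icc_self ht)).1
    have hanti2 : StrictAntiOn (fun t => deriv X s * (Y t - Y s) - deriv Y s * (X t - X s))
        (Icc s (s + r)) := by
      apply strictAntiOn_of_deriv_neg (convex_Icc _ _)
      · exact fun t _ => (hder s t).continuousAt.continuousWithinAt
      intro t ht
      rw [interior_Icc] at ht
      rw [(hder s t).deriv]
      have h1 : φ t < φ s := hanti (left_mem_Icc.2 (by linarith)) (Ioo_subset_Icc_self ht) ht.1
      have h2 := (abs_lt.1 (hin t (Ioo_subset_Icc_self ht)).2).1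
      exact sin_neg_of_neg_of_neg_pi_lt (by linarith) (by linarith)
    have h1 := hanti2 (left_mem_Icc.2 (by linarith)) (right_mem_Icc.2 (by linarith))
      (by linarith : s < s + r)
    have h2 := hnn s (s + r) (by linarith) (by linarith)
    simp only [sub_self, mul_zero] at h1
    linarith
  have hmono : Monotone φ := by
    apply monotone_of_deriv_nonneg (fun t => (hφ t).differentiableAt)
    intro t
    rw [(hφ t).deriv]
    exact hnonneg t
  have hstrict : StrictMono φ := by
    intro s t hst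
    refine lt_of_le_of_ne (hmono hst.le) ?_
    intro heq
    -- φ constant on [s,t]
    have hc : ∀ u ∈ Icc s t, φ u = φ s := fun u hu =>
      le_antisymm (heq ▸ hmono hu.2) (hmono hu.1)
    set u := min t (s + L / 2) with hu
    have hsu : s < u := lt_min hst (by linarith [h.pos])
    have hut : u ≤ t := min_le_left _ _
    have huL : u < s + L := lt_of_le_of_lt (min_le_right _ _) (by linarith [h.pos])
    have hpos := hnn s u hsu huL
    -- mean value
    obtain ⟨c, hc1, hc2⟩ := exists_hasDerivAt_eq_slope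
      (fun t => deriv X s * (Y t - Y s) - deriv Y s * (X t - X s)) (fun t => sin (φ t - φ s))
      hsu (fun t _ => (hder s t).continuousAt.continuousWithinAt) (fun t _ => hder s t)
    have hcs : φ c = φ s := hc c ⟨hc1.1.le, hc1.2.le.trans hut⟩
    rw [hcs, sub_self, sin_zero] at hc2
    simp only [sub_self, mul_zero, sub_zero] at hc2
    have h3 : 0 < u - s := by linarith
    have h4 := div_pos hpos h3
    linarith
  -- periodic tangent
  have hpX : ∀ t, deriv X (t + L) = deriv X t := by
    intro t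
    have h1 : HasDerivAt (fun t => X (t + L)) (deriv X (t + L)) t := by
      have := (h.smoothX.differentiable (by norm_num) (t + L)).hasDerivAt.comp_add_const t L
      exact this
    have h2 : (fun t => X (t + L)) = X := by ext t; exact h.periodicX t
    rw [h2] at h1
    exact h1.deriv.symm
  have hpY : ∀ t, deriv Y (t + L) = deriv Y t := by
    intro t
    have h1 : HasDerivAt (fun t => Y (t + L)) (deriv Y (t + L)) t := by
      have := (h.smoothY.differentiable (by norm_num) (t + L)).hasDerivAt.comp_add_const t L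
      exact this
    have h2 : (fun t => Y (t + L)) = Y := by ext t; exact h.periodicY t
    rw [h2] at h1
    exact h1.deriv.symm
  have hturn : ∀ t, φ (t + L) = φ t + 2 * π := by
    intro t
    have hc : cos (φ (t + L)) = cos (φ t) := by rw [← hX, ← hX, hpX]
    have hs : sin (φ (t + L)) = sin (φ t) := by rw [← hY, ← hY, hpY]
    have hc1 : cos (φ (t + L) - φ t) = 1 := by
      rw [cos_sub, hc, hs]
      have := sin_sq_add_cos_sq (φ t)
      nlinarith
    obtain ⟨m, hm⟩ := (cos_eq_one_iff _).1 hc1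
    have hlt : φ t < φ (t + L) := hstrict (by linarith [h.pos])
    have hm1 : 0 < m := by
      by_contra hcon
      push Not at hcon
      have : (m : ℝ) ≤ 0 := by exact_mod_cast hcon
      nlinarith [pi_pos]
    have hm2 : m < 2 := by
      by_contra hcon
      push Not at hcon
      have hm' : (2 : ℝ) ≤ m := by exact_mod_cast hcon
      have hbig : φ t + 2 * π < φ (t + L) := by nlinarith [pi_pos]
      have hmem : φ t + 2 * π ∈ Icc (φ t) (φ (t + L)) := ⟨by linarith [pi_pos], hbig.le⟩
      obtain ⟨s, hs1, hs2⟩ := intermediate_value_Icc (by linarith [h.pos] : t ≤ t + L)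
        hφc.continuousOn hmem
      have hts : t < s := by
        rcases eq_or_lt_of_le hs1.1 with h0 | h0
        · exfalso; rw [← h0] at hs2; linarith [pi_pos]
        · exact h0
      have hsL : s < t + L := by
        rcases eq_or_lt_of_le hs1.2 with h0 | h0
        · exfalso; rw [h0] at hs2; linarith
        · exact h0
      have p1 := hnn t s hts hsL
      have p2 := hnn s (t + L) hsL (by linarith)
      rw [h.periodicX, h.periodicY] at p2
      have q1 : deriv X s = deriv X t := by rw [hX, hX, hs2, cos_add_two_pi]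
      have q2 : deriv Y s = deriv Y t := by rw [hY, hY, hs2, sin_add_two_pi]
      rw [q1, q2] at p2
      linarith
    have hm3 : m = 1 := by omega
    rw [hm3] at hm
    push_cast at hm
    linarith
  exact ⟨φ, κ, hdX, hdY, hφ, hκ, hnonneg, hstrict, hturn⟩

/-! ### The steering angle -/

section Steering

variable {X Y : ℝ → ℝ} {L ℓ : ℝ} {φ κ θ : ℝ → ℝ}

/-- the frame angle equation in terms of the tangent angle -/
def Ode (ℓ : ℝ) (φ θ : ℝ → ℝ) : Prop := ∀ t, HasDerivAt θ (sin (θ t - φ t) / ℓ) t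

lemma ode_of_frame (hT : TangentAngle X Y L φ κ) (hθ : IsFrameAngle X Y ℓ θ) : Ode ℓ φ θ := by
  intro t
  have := hθ t
  rw [(hT.cosφ t).deriv, (hT.sinφ t).deriv] at this
  rw [sin_sub]
  convert this using 2
  ring

lemma theta_cont (h : Ode ℓ φ θ) : Continuous θ :=
  continuous_iff_continuousAt.2 fun t => (h t).continuousAt

lemma phi_cont (hT : TangentAngle X Y L φ κ) : Continuous φ :=
  continuous_iff_continuousAt.2 fun t => (hT.der t).continuousAt

/-- multiples of π are crossed by the steering angle θ - φ downwards only -/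
lemma cross (hT : TangentAngle X Y L φ κ) (h : Ode ℓ φ θ) (j : ℤ) {t₀ t : ℝ}
    (h0 : θ t₀ - φ t₀ ≤ j * π) (hlt : t₀ < t) : θ t - φ t < j * π := by
  have hθc := theta_cont h
  have hφc := phi_cont hT
  set w : ℝ → ℝ := fun t => θ t - φ t - j * π with hw
  have hwc : Continuous w := by fun_prop
  let c : ℝ → ℝ := fun t => (-1) ^ j * sinc (w t) / ℓ
  have hcc : Continuous c := by
    have := continuous_sinc.comp hwc
    have h2 : Continuous fun t => sinc (w t) := this
    fun_prop
  have hwd : ∀ t, HasDerivAt w (c t * w t - κ t) t := by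
    intro t
    have h1 : HasDerivAt w (sin (θ t - φ t) / ℓ - κ t) t :=
      ((h t).fun_sub (hT.der t)).sub_const _
    refine h1.congr_deriv ?_
    have h2 : sin (θ t - φ t) = (-1) ^ j * sin (w t) := by
      rw [← sin_add_int_mul_pi]; congr 1; simp [hw]
    have h3 : sin (w t) = sinc (w t) * w t := by
      by_cases h0 : w t = 0
      · rw [h0]; simp
      · rw [sinc_of_ne_zero h0]; field_simp
    rw [h2, h3]
    simp only [c]
    ring
  let C : ℝ → ℝ := fun t => ∫ s in (0 : ℝ)..t, c s
  have hC : ∀ t, HasDerivAt C (c t) t := fun t =>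
    (intervalIntegral.integral_hasDerivAt_right (hcc.intervalIntegrable 0 t)
      (hcc.stronglyMeasurableAtFilter _ _) hcc.continuousAt)
  let G : ℝ → ℝ := fun t => w t * exp (-C t)
  have hG : ∀ t, HasDerivAt G (-(κ t * exp (-C t))) t := by
    intro t
    have := (hwd t).fun_mul ((hC t).fun_neg.exp)
    refine this.congr_deriv ?_
    ring
  have hanti : Antitone G := by
    apply antitone_of_deriv_nonpos (fun t => (hG t).differentiableAt)
    intro t
    rw [(hG t).deriv]
    have := hT.nonneg t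
    have := (exp_pos (-C t)).le
    simp only [Left.neg_nonpos_iff]
    positivity
  have hw0 : w t₀ ≤ 0 := by simp only [hw]; linarith
  have hG0 : G t₀ ≤ 0 := mul_nonpos_of_nonpos_of_nonneg hw0 (exp_pos _).le
  have hGt : G t ≤ G t₀ := hanti hlt.le
  suffices hGt' : G t < 0 by
    have : w t < 0 := by
      by_contra hcon
      push Not at hcon
      have := mul_nonneg hcon (exp_pos (-C t)).le
      simp only [G] at hGt'
      linarith
    simp only [hw] at this
    linarith
  refine lt_of_le_of_ne (hGt.trans hG0) ?_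
  intro heq
  have hzero : ∀ u ∈ Icc t₀ t, w u = 0 := by
    intro u hu
    have h1 : G u ≤ G t₀ := hanti hu.1
    have h2 : G t ≤ G u := hanti hu.2
    have h3 : G u = 0 := by linarith
    rcases mul_eq_zero.1 h3 with h4 | h4
    · exact h4
    · exact absurd h4 (exp_pos _).ne'
  -- κ vanishes on the open interval, so φ is constant
  obtain ⟨u, hu1, hu2⟩ := exists_hasDerivAt_eq_slope φ κ hlt hφc.continuousOn
    (fun t _ => hT.der t)
  have hk : κ u = 0 := by
    have h1 : HasDerivAt w 0 u := by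
      apply (hasDerivAt_const u (0 : ℝ)).congr_of_eventuallyEq
      filter_upwards [Icc_mem_nhds hu1.1 hu1.2] with x hx
      exact hzero x hx
    have h2 := (hwd u).unique h1
    rw [hzero u ⟨hu1.1.le, hu1.2.le⟩] at h2
    linarith
  rw [hk] at hu2
  have h3 : 0 < (φ t - φ t₀) / (t - t₀) := div_pos (sub_pos.2 (hT.mono hlt)) (sub_pos.2 hlt)
  linarith

/-- monotonicity of θ on intervals where the steering angle has positive sine -/
lemma theta_up (hℓ : 0 < ℓ) (h : Ode ℓ φ θ) {a b : ℝ}
    (hs : ∀ t ∈ Ioo a b, 0 < sin (θ t - φ t)) : StrictMonoOn θ (Icc a b) := by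
  apply strictMonoOn_of_deriv_pos (convex_Icc _ _) (theta_cont h).continuousOn
  intro t ht
  rw [interior_Icc] at ht
  rw [(h t).deriv]
  exact div_pos (hs t ht) hℓ

lemma theta_down (hℓ : 0 < ℓ) (h : Ode ℓ φ θ) {a b : ℝ}
    (hs : ∀ t ∈ Ioo a b, sin (θ t - φ t) < 0) : StrictAntiOn θ (Icc a b) := by
  apply strictAntiOn_of_deriv_neg (convex_Icc _ _) (theta_cont h).continuousOn
  intro t ht
  rw [interior_Icc] at ht
  rw [(h t).deriv]
  exact div_neg_of_neg_of_pos (hs t ht) hℓ

/-- shifting the frame angle by a multiple of 2π -/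
lemma ode_shift (h : Ode ℓ φ θ) (i : ℤ) : Ode ℓ φ (fun t => θ t + i * (2 * π)) := by
  intro t
  have := (h t).add_const ((i : ℝ) * (2 * π))
  refine this.congr_deriv ?_
  congr 1
  rw [show θ t + i * (2 * π) - φ t = (θ t - φ t) + i * (2 * π) by ring,
    sin_add_int_mul_two_pi]

/-- The heart of the proof: no frame angle takes equal values at three times at which the tangent
angle is φ₁, φ₁ + π, φ₁ + 2π when the front track closes up. -/
lemma core (hℓ : 0 < ℓ) (hT : TangentAngle X Y L φ κ) (h : Ode ℓ φ θ) {t₁ t₂ t₃ : ℝ}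
    (hφ2 : φ t₂ = φ t₁ + π) (hφ3 : φ t₃ = φ t₁ + 2 * π) (hX : X t₃ = X t₁) (hY : Y t₃ = Y t₁)
    (hθ2 : θ t₂ = θ t₁) (hθ3 : θ t₃ = θ t₁) (hlo : -π < θ t₁ - φ t₁) (hhi : θ t₁ - φ t₁ ≤ 0) :
    False := by
  have hπ := pi_pos
  have hθc := theta_cont h
  have hφc := phi_cont hT
  have hαc : Continuous fun t => θ t - φ t := by fun_prop
  have h12 : t₁ < t₂ := hT.mono.lt_iff_lt.1 (by linarith)
  have h23 : t₂ < t₃ := hT.mono.lt_iff_lt.1 (by linarith)
  -- the three barriers
  have b0 : ∀ {s t : ℝ}, θ s - φ s ≤ 0 → s < t → θ t - φ t < 0 := by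
    intro s t h1 h2
    have := cross hT h 0 (t₀ := s) (t := t) (by simpa using h1) h2
    simpa using this
  have b1 : ∀ {s t : ℝ}, θ s - φ s ≤ -π → s < t → θ t - φ t < -π := by
    intro s t h1 h2
    have := cross hT h (-1) (t₀ := s) (t := t) (by push_cast; linarith) h2
    push_cast at this; linarith
  have b2 : ∀ {s t : ℝ}, θ s - φ s ≤ -(2 * π) → s < t → θ t - φ t < -(2 * π) := by
    intro s t h1 h2
    have := cross hT h (-2) (t₀ := s) (t := t) (by push_cast; linarith) h2
    push_cast at this; linarith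
  have b3 : ∀ {s t : ℝ}, θ s - φ s ≤ -(3 * π) → s < t → θ t - φ t < -(3 * π) := by
    intro s t h1 h2
    have := cross hT h (-3) (t₀ := s) (t := t) (by push_cast; linarith) h2
    push_cast at this; linarith
  -- the time ta
  obtain ⟨ta, hta, hαa⟩ : ∃ ta ∈ Icc t₁ t₂, θ ta - φ ta = -π := by
    have := intermediate_value_Icc' h12.le hαc.continuousOn
    exact this ⟨by rw [hθ2, hφ2]; linarith, hlo.le⟩
  have hta1 : t₁ < ta := by
    rcases eq_or_lt_of_le hta.1 with h0 | h0
    · rw [← h0] at hαa; linarith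
    · exact h0
  have down1 : StrictAntiOn θ (Icc t₁ ta) := by
    apply theta_down hℓ h
    intro t ht
    have u1 := b0 hhi ht.1
    have u2 : -π < θ t - φ t := by
      by_contra hcon
      push Not at hcon
      have := b1 hcon ht.2
      linarith
    exact sin_neg_of_neg_of_neg_pi_lt u1 u2
  have hθa : θ ta < θ t₁ := down1 (left_mem_Icc.2 hta1.le) (right_mem_Icc.2 hta1.le) hta1
  have hta2 : ta < t₂ := by
    rcases eq_or_lt_of_le hta.2 with h0 | h0
    · rw [h0] at hθa; linarith
    · exact h0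
  have up1 : StrictMonoOn θ (Icc ta t₂) := by
    apply theta_up hℓ h
    intro t ht
    have u1 := b1 hαa.le ht.1
    have u2 : -(2 * π) < θ t - φ t := by
      by_contra hcon
      push Not at hcon
      have := b2 hcon ht.2
      rw [hθ2, hφ2] at this
      linarith
    have : sin (θ t - φ t + 2 * π) = sin (θ t - φ t) := sin_add_two_pi _
    rw [← this]
    exact sin_pos_of_pos_of_lt_pi (by linarith) (by linarith)
  have hα2 : θ t₂ - φ t₂ < -π := b1 hαa.le hta2
  have hneg : θ t₁ - φ t₁ < 0 := by rw [hθ2, hφ2] at hα2; linarith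
  -- the time tb
  obtain ⟨tb, htb, hαb⟩ : ∃ tb ∈ Icc t₂ t₃, θ tb - φ tb = -(2 * π) := by
    have := intermediate_value_Icc' h23.le hαc.continuousOn
    exact this ⟨by rw [hθ3, hφ3]; linarith, by rw [hθ2, hφ2]; linarith⟩
  have htb1 : t₂ < tb := by
    rcases eq_or_lt_of_le htb.1 with h0 | h0
    · rw [← h0, hθ2, hφ2] at hαb; linarith
    · exact h0
  have htb2 : tb < t₃ := by
    rcases eq_or_lt_of_le htb.2 with h0 | h0
    · rw [h0, hθ3, hφ3] at hαb; linarith
    · exact h0
  have up2 : StrictMonoOn θ (Icc t₂ tb) := by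
    apply theta_up hℓ h
    intro t ht
    have u1 := b1 hα2.le ht.1
    have u2 : -(2 * π) < θ t - φ t := by
      by_contra hcon
      push Not at hcon
      have := b2 hcon ht.2
      linarith
    have : sin (θ t - φ t + 2 * π) = sin (θ t - φ t) := sin_add_two_pi _
    rw [← this]
    exact sin_pos_of_pos_of_lt_pi (by linarith) (by linarith)
  have down2 : StrictAntiOn θ (Icc tb t₃) := by
    apply theta_down hℓ h
    intro t ht
    have u1 := b2 hαb.le ht.1
    have u2 : -(3 * π) < θ t - φ t := by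
      by_contra hcon
      push Not at hcon
      have := b3 hcon ht.2
      rw [hθ3, hφ3] at this
      linarith
    have : sin (θ t - φ t + 2 * π) = sin (θ t - φ t) := sin_add_two_pi _
    rw [← this]
    exact sin_neg_of_neg_of_neg_pi_lt (by linarith) (by linarith)
  -- range of θ
  have r1 : ∀ t ∈ Icc t₁ t₂, φ t₁ - π < θ t ∧ θ t ≤ θ t₁ := by
    intro t ht
    have hlow : φ t₁ - π < θ ta := by
      have := hT.mono hta1
      linarith
    rcases le_total t ta with hle | hle
    · refine ⟨lt_of_lt_of_le hlow ?_, ?_⟩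
      · exact down1.antitoneOn ⟨ht.1, hle⟩ (right_mem_Icc.2 hta1.le) hle
      · exact down1.antitoneOn (left_mem_Icc.2 hta1.le) ⟨ht.1, hle⟩ ht.1
    · refine ⟨lt_of_lt_of_le hlow ?_, ?_⟩
      · exact up1.monotoneOn (left_mem_Icc.2 hta2.le) ⟨hle, ht.2⟩ hle
      · rw [← hθ2]
        exact up1.monotoneOn ⟨hle, ht.2⟩ (right_mem_Icc.2 hta2.le) ht.2
  have r1' : ∀ t ∈ Ioo t₁ t₂, θ t < θ t₁ := by
    intro t ht
    rcases le_total t ta with hle | hle
    · exact down1 (left_mem_Icc.2 hta1.le) ⟨ht.1.le, hle⟩ ht.1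
    · rw [← hθ2]
      exact up1 ⟨hle, ht.2.le⟩ (right_mem_Icc.2 hta2.le) ht.2
  have r2 : ∀ t ∈ Icc t₂ t₃, θ t₁ ≤ θ t ∧ θ t < φ t₁ := by
    intro t ht
    have hhigh : θ tb < φ t₁ := by
      have := hT.mono htb2
      linarith
    rcases le_total t tb with hle | hle
    · refine ⟨?_, lt_of_le_of_lt ?_ hhigh⟩
      · rw [← hθ2]
        exact up2.monotoneOn (left_mem_Icc.2 htb1.le) ⟨ht.1, hle⟩ ht.1
      · exact up2.monotoneOn ⟨ht.1, hle⟩ (right_mem_Icc.2 htb1.le) hle
    · refine ⟨?_, lt_of_le_of_lt ?_ hhigh⟩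
      · rw [← hθ3]
        exact down2.antitoneOn ⟨hle, ht.2⟩ (right_mem_Icc.2 htb2.le) ht.2
      · exact down2.antitoneOn (left_mem_Icc.2 htb2.le) ⟨hle, ht.2⟩ hle
  have range : ∀ t ∈ Icc t₁ t₃, φ t₁ - π < θ t ∧ θ t < φ t₁ := by
    intro t ht
    rcases le_total t t₂ with hle | hle
    · have := r1 t ⟨ht.1, hle⟩
      exact ⟨this.1, by linarith [this.2]⟩
    · have := r2 t ⟨hle, ht.2⟩
      exact ⟨by linarith [this.1], this.2⟩
  -- the monotone quantity
  set c := θ t₁ with hc
  set φ₁ := φ t₁ with hφ₁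
  let W : ℝ → ℝ := fun t => ℓ * sin (c - φ₁) * log (-tan ((θ t - φ₁) / 2)) -
    (sin c * X t - cos c * Y t)
  have hW : ∀ t ∈ Icc t₁ t₃, HasDerivAt W
      (sin (θ t - c) * sin (φ t - φ₁) / sin (θ t - φ₁)) t := by
    intro t ht
    obtain ⟨ha, hb⟩ := range t ht
    have hcos : 0 < cos ((θ t - φ₁) / 2) :=
      cos_pos_of_mem_Ioo ⟨by linarith, by linarith⟩
    have hsin : sin ((θ t - φ₁) / 2) < 0 :=
      sin_neg_of_neg_of_neg_pi_lt (by linarith) (by linarith)
    have htan : -tan ((θ t - φ₁) / 2) ≠ 0 := by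
      rw [tan_eq_sin_div_cos]
      have : sin ((θ t - φ₁) / 2) / cos ((θ t - φ₁) / 2) < 0 := div_neg_of_neg_of_pos hsin hcos
      linarith
    have hs2 : sin (θ t - φ₁) = 2 * sin ((θ t - φ₁) / 2) * cos ((θ t - φ₁) / 2) := by
      rw [← sin_two_mul]; congr 1; ring
    have hs3 : sin (θ t - φ₁) ≠ 0 := by
      rw [hs2]
      exact mul_ne_zero (mul_ne_zero (by norm_num) hsin.ne) hcos.ne'
    have d1 : HasDerivAt (fun t => (θ t - φ₁) / 2) (sin (θ t - φ t) / ℓ / 2) t :=
      ((h t).sub_const φ₁).div_const 2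
    have d2 : HasDerivAt (fun t => tan ((θ t - φ₁) / 2))
        (1 / cos ((θ t - φ₁) / 2) ^ 2 * (sin (θ t - φ t) / ℓ / 2)) t :=
      HasDerivAt.comp (h₂ := tan) t (Real.hasDerivAt_tan hcos.ne') d1
    have d3 := (d2.fun_neg.log htan).const_mul (ℓ * sin (c - φ₁))
    have d4 := d3.fun_sub
      (((hT.cosφ t).const_mul (sin c)).fun_sub ((hT.sinφ t).const_mul (cos c)))
    refine d4.congr_deriv ?_
    have e1 : -(1 / cos ((θ t - φ₁) / 2) ^ 2 * (sin (θ t - φ t) / ℓ / 2)) /
        -tan ((θ t - φ₁) / 2) = sin (θ t - φ t) / ℓ / sin (θ t - φ₁) := by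
      rw [hs2, tan_eq_sin_div_cos]
      have := hsin.ne
      have := hcos.ne'
      field_simp
    rw [e1]
    have e2 : sin c * cos (φ t) - cos c * sin (φ t) = sin (c - φ t) := by rw [sin_sub]
    rw [e2]
    have e3 : sin (c - φ₁) * sin (θ t - φ t) - sin (c - φ t) * sin (θ t - φ₁) =
        sin (θ t - c) * sin (φ t - φ₁) := by
      rw [sin_sub, sin_sub, sin_sub, sin_sub, sin_sub, sin_sub]
      ring
    rw [← e3]
    have := hℓ.ne'
    field_simp
  have hWc : ContinuousOn W (Icc t₁ t₃) := fun t ht => (hW t ht).continuousAt.continuousWithinAt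
  have mono1 : StrictMonoOn W (Icc t₁ t₂) := by
    apply strictMonoOn_of_deriv_pos (convex_Icc _ _)
      (hWc.mono (Icc_subset_Icc le_rfl h23.le))
    intro t ht
    rw [interior_Icc] at ht
    have ht' : t ∈ Icc t₁ t₃ := ⟨ht.1.le, by linarith [ht.2]⟩
    rw [(hW t ht').deriv]
    obtain ⟨ha, hb⟩ := range t ht'
    have s1 : sin (θ t - c) < 0 :=
      sin_neg_of_neg_of_neg_pi_lt (by linarith [r1' t ht]) (by linarith)
    have s2 : 0 < sin (φ t - φ₁) := by
      have v1 := hT.mono ht.1
      have v2 := hT.mono ht.2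
      exact sin_pos_of_pos_of_lt_pi (by linarith) (by linarith)
    have s3 : sin (θ t - φ₁) < 0 :=
      sin_neg_of_neg_of_neg_pi_lt (by linarith) (by linarith)
    exact div_pos_of_neg_of_neg (mul_neg_of_neg_of_pos s1 s2) s3
  have mono2 : MonotoneOn W (Icc t₂ t₃) := by
    apply monotoneOn_of_deriv_nonneg (convex_Icc _ _)
      (hWc.mono (Icc_subset_Icc h12.le le_rfl))
    · intro t ht
      rw [interior_Icc] at ht
      exact (hW t ⟨by linarith [ht.1], ht.2.le⟩).differentiableAt.differentiableWithinAt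
    intro t ht
    rw [interior_Icc] at ht
    have ht' : t ∈ Icc t₁ t₃ := ⟨by linarith [ht.1], ht.2.le⟩
    rw [(hW t ht').deriv]
    obtain ⟨ha, hb⟩ := range t ht'
    have s1 : 0 ≤ sin (θ t - c) :=
      sin_nonneg_of_nonneg_of_le_pi (by linarith [(r2 t ⟨ht.1.le, ht.2.le⟩).1]) (by linarith)
    have s2 : sin (φ t - φ₁) ≤ 0 := by
      have v1 := hT.mono ht.1
      have v2 := hT.mono ht.2
      have : sin (φ t - φ₁ - 2 * π) = sin (φ t - φ₁) := sin_sub_two_pi _
      rw [← this]
      exact sin_nonpos_of_nonpos_of_neg_pi_le (by linarith) (by linarith)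
    have s3 : sin (θ t - φ₁) < 0 :=
      sin_neg_of_neg_of_neg_pi_lt (by linarith) (by linarith)
    exact div_nonneg_of_nonpos (mul_nonpos_of_nonneg_of_nonpos s1 s2) s3.le
  have f1 : W t₁ < W t₂ := mono1 (left_mem_Icc.2 h12.le) (right_mem_Icc.2 h12.le) h12
  have f2 : W t₂ ≤ W t₃ := mono2 (left_mem_Icc.2 h23.le) (right_mem_Icc.2 h23.le) h23.le
  have f3 : W t₃ = W t₁ := by simp only [W, hX, hY, hθ3, hc]
  linarith

/-- same as `core`, without normalisation of the angle -/
lemma core' (hℓ : 0 < ℓ) (hT : TangentAngle X Y L φ κ) (h : Ode ℓ φ θ)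
    (hθL : ∀ t, θ (t + L) = θ t) (hXL : ∀ t, X (t + L) = X t) (hYL : ∀ t, Y (t + L) = Y t)
    {t₁ t₂ : ℝ} (hφ2 : φ t₂ = φ t₁ + π) (hθ2 : θ t₂ = θ t₁) : False := by
  have hπ := pi_pos
  -- the integer j with (j-1)π < α₁ ≤ jπ
  set j : ℤ := ⌈(θ t₁ - φ t₁) / π⌉ with hj
  have hj1 : θ t₁ - φ t₁ ≤ j * π := by
    have := Int.le_ceil ((θ t₁ - φ t₁) / π)
    rwa [div_le_iff₀ hπ] at this
  have hj2 : (j - 1) * π < θ t₁ - φ t₁ := by
    have := Int.ceil_lt_add_one ((θ t₁ - φ t₁) / π)
    rw [← hj] at this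
    have h2 : (j : ℝ) - 1 < (θ t₁ - φ t₁) / π := by linarith
    rwa [lt_div_iff₀ hπ] at h2
  rcases Int.even_or_odd' j with ⟨i, hi | hi⟩
  · have h' := ode_shift h (-i)
    have hji : (j : ℝ) = 2 * i := by rw [hi]; push_cast; ring
    refine core hℓ hT h' (t₁ := t₁) (t₂ := t₂) (t₃ := t₁ + L) hφ2 (hT.turn t₁) (hXL t₁) (hYL t₁)
      ?_ ?_ ?_ ?_
    · simp only [hθ2]
    · simp only [hθL]
    · push_cast; rw [hji] at hj2; linarith
    · push_cast; rw [hji] at hj1; linarith
  · have h' := ode_shift h (-i)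
    have hji : (j : ℝ) = 2 * i + 1 := by rw [hi]; push_cast; ring
    refine core hℓ hT h' (t₁ := t₂) (t₂ := t₁ + L) (t₃ := t₂ + L) ?_ (hT.turn t₂) (hXL t₂)
      (hYL t₂) ?_ ?_ ?_ ?_
    · rw [hT.turn, hφ2]; ring
    · simp only [hθL, hθ2]
    · simp only [hθL]
    · push_cast; rw [hji] at hj2; rw [hφ2, hθ2]; linarith
    · push_cast; rw [hji] at hj1; rw [hφ2, hθ2]; linarith

/-- the frame angle of a closed rear track is periodic up to turns -/
lemma theta_periodic (hℓ : 0 < ℓ) (hT : TangentAngle X Y L φ κ) (h : Ode ℓ φ θ) {k : ℤ}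
    (hk : θ L = θ 0 + k * (2 * π)) : ∀ t, θ (t + L) = θ t + k * (2 * π) := by
  have h1 : ∀ t, HasDerivAt (fun t => θ (t + L)) (sin (θ (t + L) - φ t) / ℓ) t := by
    intro t
    have := (h (t + L)).comp_add_const t L
    refine this.congr_deriv ?_
    rw [hT.turn, show θ (t + L) - (φ t + 2 * π) = (θ (t + L) - φ t) - 2 * π by ring,
      sin_sub_two_pi]
  have h2 := ode_shift h k
  have heq : (fun t => θ (t + L)) = fun t => θ t + k * (2 * π) := by
    apply ODE_solution_unique_univ (v := fun t y => sin (y - φ t) / ℓ) (s := fun _ => univ)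
      (K := ⟨1 / ℓ, by positivity⟩) (t₀ := 0)
    · intro t
      apply LipschitzWith.lipschitzOnWith
      apply LipschitzWith.of_dist_le_mul
      intro x y
      rw [Real.dist_eq, Real.dist_eq, ← sub_div, abs_div, abs_of_pos hℓ]
      change _ ≤ (1 / ℓ) * |x - y|
      rw [one_div, inv_mul_eq_div]
      apply div_le_div_of_nonneg_right _ hℓ.le
      have := Real.abs_sin_sub_sin_le (x - φ t) (y - φ t)
      calc _ ≤ |(x - φ t) - (y - φ t)| := this
        _ = |x - y| := by congr 1; ring
    · intro t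
      exact ⟨h1 t, trivial⟩
    · intro t
      exact ⟨h2 t, trivial⟩
    · simp [hk]
  intro t
  exact congr_fun heq t

/-- the rotation number is not larger than one -/
lemma not_big (hL : 0 < L) (hT : TangentAngle X Y L φ κ) (h : Ode ℓ φ θ) {k : ℤ}
    (hk : θ L = θ 0 + k * (2 * π)) : k ≤ 1 := by
  by_contra hcon
  push Not at hcon
  have hk2 : (2 : ℝ) ≤ k := by exact_mod_cast hcon
  have hπ := pi_pos
  set j : ℤ := ⌈(θ 0 - φ 0) / π⌉ with hj
  have hj1 : θ 0 - φ 0 ≤ j * π := by
    have := Int.le_ceil ((θ 0 - φ 0) / π)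
    rwa [div_le_iff₀ hπ] at this
  have hj2 : (j - 1) * π < θ 0 - φ 0 := by
    have := Int.ceil_lt_add_one ((θ 0 - φ 0) / π)
    rw [← hj] at this
    have h2 : (j : ℝ) - 1 < (θ 0 - φ 0) / π := by linarith
    rwa [lt_div_iff₀ hπ] at h2
  have h1 := cross hT h j hj1 hL
  have h2 := hT.turn 0
  rw [zero_add] at h2
  rw [hk, h2] at h1
  nlinarith

/-- passing from an odd to the next smaller even multiple of π costs more than π of turning -/
lemma pass (hℓ : 0 < ℓ) (hT : TangentAngle X Y L φ κ) (h : Ode ℓ φ θ) {m : ℤ} {s s' : ℝ}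
    (hlt : s < s') (h1 : θ s - φ s = (2 * m + 1) * π) (h2 : θ s' - φ s' = 2 * m * π) :
    φ s + π < φ s' := by
  have hup : StrictMonoOn θ (Icc s s') := by
    apply theta_up hℓ h
    intro t ht
    have u1 := cross hT h (2 * m + 1) (t₀ := s) (t := t) (by push_cast; linarith) ht.1
    have u2 : 2 * m * π < θ t - φ t := by
      by_contra hcon
      push Not at hcon
      have := cross hT h (2 * m) (t₀ := t) (t := s') (by push_cast; linarith) ht.2
      push_cast at this
      linarith
    push_cast at u1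
    have : sin (θ t - φ t - m * (2 * π)) = sin (θ t - φ t) := sin_sub_int_mul_two_pi _ _
    rw [← this]
    exact sin_pos_of_pos_of_lt_pi (by linarith) (by linarith)
  have := hup (left_mem_Icc.2 hlt.le) (right_mem_Icc.2 hlt.le) hlt
  linarith

/-- the rotation number is not negative -/
lemma not_neg (hL : 0 < L) (hℓ : 0 < ℓ) (hT : TangentAngle X Y L φ κ) (h : Ode ℓ φ θ) {k : ℤ}
    (hk : θ L = θ 0 + k * (2 * π)) : 0 ≤ k := by
  by_contra hcon
  push Not at hcon
  have hk2 : (k : ℝ) ≤ -1 := by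
    have : k ≤ -1 := by omega
    exact_mod_cast this
  have hπ := pi_pos
  have hθc := theta_cont h
  have hφc := phi_cont hT
  have hαc : Continuous fun t => θ t - φ t := by fun_prop
  have hper := theta_periodic hℓ hT h hk
  have hαL : ∀ t, θ (t + L) - φ (t + L) ≤ θ t - φ t - 4 * π := by
    intro t
    rw [hper, hT.turn]
    nlinarith
  set i : ℤ := ⌊(θ 0 - φ 0) / (2 * π)⌋ with hi
  have hi1 : i * (2 * π) ≤ θ 0 - φ 0 := by
    have := Int.floor_le ((θ 0 - φ 0) / (2 * π))
    rwa [le_div_iff₀ (by positivity)] at this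
  have hi2 : θ 0 - φ 0 < (i + 1) * (2 * π) := by
    have := Int.lt_floor_add_one ((θ 0 - φ 0) / (2 * π))
    rwa [div_lt_iff₀ (by positivity)] at this
  have ivt : ∀ {a b c : ℝ}, a ≤ b → c ≤ θ a - φ a → θ b - φ b ≤ c →
      ∃ t ∈ Icc a b, θ t - φ t = c := by
    intro a b c hab h1 h2
    exact intermediate_value_Icc' hab hαc.continuousOn ⟨h2, h1⟩
  have hα0 := hαL 0
  rw [zero_add] at hα0
  obtain ⟨t0, ht0, e0⟩ := ivt (c := i * (2 * π)) hL.le hi1 (by linarith)
  have hαt0 := hαL t0
  obtain ⟨s1, hs1, e1⟩ := ivt (a := t0) (b := t0 + L) (c := (2 * ((i - 1 : ℤ) : ℝ) + 1) * π)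
    (by linarith) (by push_cast; linarith) (by push_cast; linarith)
  obtain ⟨s2, hs2, e2⟩ := ivt (a := s1) (b := t0 + L) (c := 2 * ((i - 1 : ℤ) : ℝ) * π)
    hs1.2 (by rw [e1]; linarith) (by push_cast; linarith)
  obtain ⟨s3, hs3, e3⟩ := ivt (a := s2) (b := t0 + L) (c := (2 * ((i - 2 : ℤ) : ℝ) + 1) * π)
    hs2.2 (by rw [e2]; push_cast; linarith) (by push_cast; linarith)
  obtain ⟨s4, hs4, e4⟩ := ivt (a := s3) (b := t0 + L) (c := 2 * ((i - 2 : ℤ) : ℝ) * π)
    hs3.2 (by rw [e3]; linarith) (by push_cast; linarith)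
  have l12 : s1 < s2 := by
    rcases eq_or_lt_of_le hs2.1 with h0 | h0
    · rw [← h0, e1] at e2; linarith
    · exact h0
  have l34 : s3 < s4 := by
    rcases eq_or_lt_of_le hs4.1 with h0 | h0
    · rw [← h0, e3] at e4; linarith
    · exact h0
  have p1 := pass hℓ hT h l12 e1 e2
  have p2 := pass hℓ hT h l34 e3 e4
  have m1 := hT.mono.monotone hs1.1
  have m2 := hT.mono.monotone hs3.1
  have m3 := hT.mono.monotone hs4.2
  have m4 := hT.turn t0
  linarith

lemma phi_surj (hT : TangentAngle X Y L φ κ) : Function.Surjective φ := by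
  have hn : ∀ n : ℕ, φ (n * L) = φ 0 + n * (2 * π) := by
    intro n
    induction n with
    | zero => simp
    | succ n ih =>
      have := hT.turn (n * L)
      push_cast
      rw [show ((n : ℝ) + 1) * L = n * L + L by ring, this, ih]
      ring
  have hn' : ∀ n : ℕ, φ (-(n * L)) = φ 0 - n * (2 * π) := by
    intro n
    induction n with
    | zero => simp
    | succ n ih =>
      have := hT.turn (-(((n : ℝ) + 1) * L))
      push_cast
      rw [show -(((n : ℝ) + 1) * L) + L = -(n * L) by ring, ih] at this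
      linarith
  apply (phi_cont hT).surjective
  · apply tendsto_atTop_atTop_of_monotone hT.mono.monotone
    intro b
    obtain ⟨n, hn1⟩ := exists_nat_ge ((b - φ 0) / (2 * π))
    refine ⟨n * L, ?_⟩
    rw [hn]
    rw [div_le_iff₀ (by positivity)] at hn1
    linarith
  · apply tendsto_atBot_atBot_of_monotone hT.mono.monotone
    intro b
    obtain ⟨n, hn1⟩ := exists_nat_ge ((φ 0 - b) / (2 * π))
    refine ⟨-(n * L), ?_⟩
    rw [hn']
    rw [div_le_iff₀ (by positivity)] at hn1
    linarith

/-- the rotation number is not zero -/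
lemma not_zero (hℓ : 0 < ℓ) (hT : TangentAngle X Y L φ κ) (h : Ode ℓ φ θ)
    (hXL : ∀ t, X (t + L) = X t) (hYL : ∀ t, Y (t + L) = Y t) (hk : θ L = θ 0) : False := by
  have hπ := pi_pos
  have hper : ∀ t, θ (t + L) = θ t := by
    intro t
    have := theta_periodic hℓ hT h (k := 0) (by simp [hk]) t
    simpa using this
  let e : ℝ ≃o ℝ := StrictMono.orderIsoOfSurjective φ hT.mono (phi_surj hT)
  have he : ∀ t, e t = φ t := fun t => rfl
  let σ : ℝ → ℝ := fun t => e.symm (φ t + π)
  have hσφ : ∀ t, φ (σ t) = φ t + π := by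
    intro t
    rw [← he]
    exact e.apply_symm_apply _
  have hσc : Continuous σ := e.symm.continuous.comp ((phi_cont hT).add continuous_const)
  have hσσ : ∀ t, σ (σ t) = t + L := by
    intro t
    apply hT.mono.injective
    rw [hσφ, hσφ, hT.turn]
    ring
  have hσ0 : 0 ≤ σ 0 := by
    apply hT.mono.le_iff_le.1
    rw [hσφ]
    linarith
  let H : ℝ → ℝ := fun t => θ (σ t) - θ t
  have hHc : Continuous H := ((theta_cont h).comp hσc).sub (theta_cont h)
  have hanti : H (σ 0) = -H 0 := by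
    simp only [H]
    rw [hσσ, hper]
    ring
  obtain ⟨t₁, ht₁⟩ : ∃ t₁, H t₁ = 0 := by
    rcases le_total (H 0) 0 with h0 | h0
    · obtain ⟨t₁, -, h1⟩ := intermediate_value_Icc hσ0 hHc.continuousOn
        (show (0 : ℝ) ∈ Icc (H 0) (H (σ 0)) from ⟨h0, by rw [hanti]; linarith⟩)
      exact ⟨t₁, h1⟩
    · obtain ⟨t₁, -, h1⟩ := intermediate_value_Icc' hσ0 hHc.continuousOn
        (show (0 : ℝ) ∈ Icc (H (σ 0)) (H 0) from ⟨by rw [hanti]; linarith, h0⟩)
      exact ⟨t₁, h1⟩
  exact core' hℓ hT h hper hXL hYL (hσφ t₁) (sub_eq_zero.1 ht₁)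

end Steering

/-- Q1 of MP_b4625f_gt, affirmative answer: every closed rear track over a strictly convex closed
front track has rotation number one. -/
theorem result (X Y : ℝ → ℝ) (L ℓ : ℝ) (hΓ : ConvexFrontTrack X Y L) (hℓ : 0 < ℓ)
    (θ : ℝ → ℝ) (hθ : IsFrameAngle X Y ℓ θ) (hclosed : ∃ k : ℤ, θ L - θ 0 = 2 * π * k) :
    rotationNumber θ L = 1 := by
  obtain ⟨k, hk⟩ := hclosed
  obtain ⟨φ, κ, hT⟩ := exists_tangentAngle hΓ
  have h := ode_of_frame hT hθ
  have hk' : θ L = θ 0 + k * (2 * π) := by linarith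
  have k1 := not_big hΓ.pos hT h hk'
  have k2 := not_neg hΓ.pos hℓ hT h hk'
  have k3 : k ≠ 0 := by
    rintro rfl
    exact not_zero hℓ hT h hΓ.periodicX hΓ.periodicY (by simpa using hk')
  have k4 : k = 1 := by omega
  unfold rotationNumber
  rw [hk, k4]
  have := pi_pos.ne'
  push_cast
  field_simp

end Pool.Agent.Results.MP_b4625f_gt.RotationOne
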